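import Pool.Agent.Helper74.DI.StM

set_option autoImplicit false

namespace Pool.Agent.Helper53.DI

open Pool.Agent.Helper74 Pool.Agent.Helper74.DI

open Classical in
private noncomputable def dl {α : Type} (P : α → Prop) (q : Fin 4)
    (rd : Unit → Bool × Option α) : Fin 4 × (Unit → Fin 3) :=
  if q = 0 then (1, fun _ => 2)
  else if q = 1 then
    (match (rd ()).2 with
      | none => (2, fun _ => 1)
      | some a => if P a then (1, fun _ => 2) else (3, fun _ => 1))
  else (q, fun _ => 1)

private theorem step0 {α : Type} (P : α → Prop) (w : List α) :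
    sth (dl P) w (0, fun _ => 0) = (1, fun _ => 1) := by
  unfold sth
  simp [dl]

private theorem step1 {α : Type} (P : α → Prop) (w : List α) (i : ℕ) (h : i < w.length)
    (hP : P w[i]) : sth (dl P) w (1, fun _ => i + 1) = (1, fun _ => i + 2) := by
  unfold sth
  have e : w[i]? = some w[i] := List.getElem?_eq_getElem h
  simp only [dl, Nat.add_sub_cancel, e, hP]
  simp
  funext _
  omega

private theorem step1n {α : Type} (P : α → Prop) (w : List α) (i : ℕ) (h : i < w.length)
    (hP : ¬ P w[i]) : (sth (dl P) w (1, fun _ => i + 1)).1 = 3 := by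
  unfold sth
  have e : w[i]? = some w[i] := List.getElem?_eq_getElem h
  simp only [dl, Nat.add_sub_cancel, e, hP]
  simp

private theorem step1e {α : Type} (P : α → Prop) (w : List α) (i : ℕ) (h : w.length ≤ i) :
    (sth (dl P) w (1, fun _ => i + 1)).1 = 2 := by
  unfold sth
  have e : w[i]? = none := List.getElem?_eq_none h
  simp only [dl, Nat.add_sub_cancel, e]
  simp

private theorem step3 {α : Type} (P : α → Prop) (w : List α) (c : Fin 4 × (Unit → ℕ))
    (h0 : c.1 ≠ 0) (h1 : c.1 ≠ 1) : (sth (dl P) w c).1 = c.1 := by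
  unfold sth
  simp [dl, h0, h1]

private def Inv {α : Type} (P : α → Prop) (w : List α) (c : Fin 4 × (Unit → ℕ)) : Prop :=
  c = (0, fun _ => 0) ∨ (∃ i, i ≤ w.length ∧ (∀ j (hj : j < w.length), j < i → P w[j]) ∧
    c = (1, fun _ => i + 1)) ∨ c.1 = 3 ∨ (c.1 = 2 ∧ ∀ x ∈ w, P x)

private theorem inv_step {α : Type} (P : α → Prop) (w : List α) (c : Fin 4 × (Unit → ℕ))
    (h : Inv P w c) : Inv P w (sth (dl P) w c) := by
  rcases h with h | ⟨i, hi, hP, h⟩ | h | ⟨h, hP⟩
  · rw [h, step0]
    exact Or.inr (Or.inl ⟨0, Nat.zero_le _, fun j _ hj => absurd hj (Nat.not_lt_zero _), rfl⟩)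
  · rw [h]
    rcases Nat.lt_or_ge i w.length with hl | hl
    · by_cases hc : P w[i]
      · rw [step1 P w i hl hc]
        refine Or.inr (Or.inl ⟨i + 1, hl, fun j hj hji => ?_, rfl⟩)
        rcases Nat.lt_succ_iff_lt_or_eq.1 hji with h' | h'
        · exact hP j hj h'
        · subst h'
          exact hc
      · exact Or.inr (Or.inr (Or.inl (step1n P w i hl hc)))
    · refine Or.inr (Or.inr (Or.inr ⟨step1e P w i hl, fun x hx => ?_⟩))
      obtain ⟨j, hj, rfl⟩ := List.getElem_of_mem hx
      exact hP j hj (lt_of_lt_of_le hj hl)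
  · refine Or.inr (Or.inr (Or.inl ?_))
    rw [step3 P w c (by rw [h]; decide) (by rw [h]; decide), h]
  · refine Or.inr (Or.inr (Or.inr ⟨?_, hP⟩))
    rw [step3 P w c (by rw [h]; decide) (by rw [h]; decide), h]

private theorem inv_all {α : Type} (P : α → Prop) (w : List α) (n : ℕ) :
    Inv P w ((sth (dl P) w)^[n] (0, fun _ => 0)) := by
  induction n with
  | zero => exact Or.inl rfl
  | succ n ih =>
    rw [Function.iterate_succ_apply']
    exact inv_step P w _ ih

private theorem fwd {α : Type} (P : α → Prop) (w : List α) (h : ∀ x ∈ w, P x) (i : ℕ)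
    (hi : i ≤ w.length) : (sth (dl P) w)^[i + 1] (0, fun _ => 0) = (1, fun _ => i + 1) := by
  induction i with
  | zero => exact step0 P w
  | succ i ih =>
    rw [Function.iterate_succ_apply', ih (by omega)]
    exact step1 P w i hi (h _ (List.getElem_mem _))

theorem hALP : StALP := by
  intro α P
  refine ⟨Fin 4, inferInstance, Unit, inferInstance, dl P, 0, {2}, fun w => ?_⟩
  constructor
  · intro h
    refine ⟨w.length + 2, ?_⟩
    rw [Function.iterate_succ_apply', fwd P w h w.length le_rfl]
    exact step1e P w _ le_rfl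
  · rintro ⟨n, hn⟩
    rcases inv_all P w n with h | ⟨i, _, _, h⟩ | h | ⟨_, hP⟩
    · rw [h] at hn
      exact absurd hn (by simp)
    · rw [h] at hn
      exact absurd hn (by simp)
    · rw [Set.mem_singleton_iff, h] at hn
      exact absurd hn (by decide)
    · exact hP

end Pool.Agent.Helper53.DI
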